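import Pool.Agent.Lib.MP_ef3f0f_gt.U.Z.Spec

set_option autoImplicit false

/-!
# MP_ef3f0f_gt, Theorem U: positive structures, framed loops, edges, controlled functionals

`P` is an abstract locally compact group (`SL_n(ℝ)`, `n` odd), `G : PG P` a positive structure.
Germs (oriented flags) are represented by frames, i.e. by elements of `P`.
-/

namespace Pool.Agent.MPEF.U

open MeasureTheory Topology
open scoped ENNReal Pointwise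

/-- A positive structure on a group. For `SL_n(ℝ)`: `a` the regular diagonal element,
`w` the antidiagonal element, `J` the diagonal element reversing the order, `A` the positive diagonal
subgroup, `Bor` the positive upper triangular subgroup (the stabilizer of an oriented flag), `App` the
open chamber of `A`, `D1` a compact symmetric neighbourhood of `1` in `A`, `Dp k` the elements of `A` of
depth `≥ k`, `K0` a connected subset of `SO(n)` containing `1` and `J`; `Pos`, `Tri`: positive pairs and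
triples of oriented flags. -/
structure PG (P : Type) [Group P] where
  a : P
  w : P
  J : P
  A : Subgroup P
  Bor : Subgroup P
  App : Set P
  D1 : Set P
  Dp : ℕ → Set P
  K0 : Set P
  Pos : P → P → Prop
  Tri : P → P → P → Prop

/-- The axioms of a positive structure. -/
structure PG.Ok {P : Type} [Group P] [TopologicalSpace P] (G : PG P) : Prop where
  ww : G.w * G.w = 1
  wa : G.w * G.a * G.w = G.a⁻¹
  wA : ∀ d ∈ G.A, G.w * d * G.w ∈ G.A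
  JJ : G.J * G.J = 1
  Jw : G.J * G.w = G.w * G.J
  JA : ∀ d ∈ G.A, G.J * d = d * G.J
  aA : G.a ∈ G.A
  comm : ∀ d ∈ G.A, ∀ d' ∈ G.A, d * d' = d' * d
  AB : G.A ≤ G.Bor
  D1A : G.D1 ⊆ G.A
  D1c : IsCompact G.D1
  D11 : (1 : P) ∈ G.D1
  D1i : ∀ d ∈ G.D1, d⁻¹ ∈ G.D1
  D1w : ∀ d ∈ G.D1, G.w * d * G.w ∈ G.D1
  D1e : ∀ d ∈ G.A, ∃ R : ℕ, d ∈ G.D1 ^ R
  D1n : ∃ V ∈ 𝓝 (1 : P), V ∩ G.A ⊆ G.D1
  DpA : ∀ k, G.Dp k ⊆ G.A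
  Dp1 : (1 : P) ∈ G.Dp 0
  Dps : ∀ k, G.Dp (k + 1) ⊆ G.Dp k
  Dpm : ∀ k l, ∀ s ∈ G.Dp k, ∀ s' ∈ G.Dp l, s * s' ∈ G.Dp (k + l)
  Dpw : ∀ k, ∀ s ∈ G.Dp k, G.w * s⁻¹ * G.w ∈ G.Dp k
  Dpa : ∀ n, G.a ^ n ∈ G.Dp n
  Dpd : ∀ R : ℕ, ∃ c : ℕ, ∀ k, ∀ s ∈ G.Dp (k + c), ∀ d ∈ G.D1 ^ R, s * d ∈ G.Dp k
  AppA : G.App ⊆ G.A
  Appw : ∀ d ∈ G.App, G.w * d⁻¹ * G.w ∈ G.App
  Pl : ∀ g k k', G.Pos (g * k) (g * k') ↔ G.Pos k k'
  Pr : ∀ k k', ∀ b ∈ G.Bor, G.Pos (k * b) k' ↔ G.Pos k k'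
  Ps : ∀ k k', G.Pos k k' ↔ G.Pos k' k
  P1 : G.Pos 1 G.w
  PJ : ∀ k k', G.Pos (k * G.J) (k' * G.J) ↔ G.Pos k k'
  Po : IsOpen {q : P × P | G.Pos q.1 q.2}
  Tl : ∀ g x y z, G.Tri (g * x) (g * y) (g * z) ↔ G.Tri x y z
  Tr : ∀ x y z, ∀ b ∈ G.Bor, G.Tri (x * b) y z ↔ G.Tri x y z
  Tc : ∀ x y z, G.Tri x y z → G.Tri y z x
  Ta : ∀ x y z, G.Tri x y z → ¬ G.Tri x z y
  Tt : ∀ x y z t, G.Tri x y z → G.Tri x z t → G.Tri x y t ∧ G.Tri y z t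
  TP : ∀ x y z, G.Tri x y z → G.Pos x y
  TJ : ∀ x y z, G.Tri x y z → G.Tri (x * G.J) (z * G.J) (y * G.J)
  To : IsOpen {q : P × P × P | G.Tri q.1 q.2.1 q.2.2}
  NT : ∀ C : Set P, IsCompact C → (∀ k ∈ C, G.Pos 1 k) → ∃ c, ∀ k ∈ C, G.Tri c 1 k
  JN1 : ∀ U ∈ 𝓝 (1 : P), ∃ V ∈ 𝓝 (1 : P), ∀ s ∈ G.Dp 0, ∀ s' ∈ G.Dp 0, ∀ q ∈ V,
    ∃ e ∈ U, ∃ e' ∈ U, ∃ d ∈ G.A, d ∈ U ∧ s * q * s' = e * (d * s * s') * e'
  JN2 : ∀ q, G.Pos G.w q → ∃ d ∈ G.A, ∀ U ∈ 𝓝 (1 : P), ∃ V ∈ 𝓝 (1 : P), ∃ k : ℕ,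
    ∀ s ∈ G.Dp k, ∀ s' ∈ G.Dp k, ∀ v ∈ V, ∀ v' ∈ V,
      ∃ e ∈ U, ∃ e' ∈ U, s * (v * q * v') * s' = e * (d * s * s') * e'
  CT : ∀ q, G.Pos G.w q → ∀ U ∈ 𝓝 (1 : P), ∃ V ∈ 𝓝 (1 : P), ∃ k : ℕ,
    ∀ s ∈ G.Dp k, ∀ v ∈ V, ∀ v' ∈ V, ∃ e ∈ U, ∃ b ∈ G.Bor, s * (v * q * v') = e * b
  LX : ∀ q, G.Pos G.w q → ∀ U ∈ 𝓝 (1 : P), ∃ V ∈ 𝓝 (1 : P), ∃ k : ℕ,
    ∀ s ∈ G.Dp k, ∀ v ∈ V, ∀ v' ∈ V, ∃ z : P, z⁻¹ * (s * (v * q * v')) * z ∈ G.App ∧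
      (∃ e ∈ U, ∃ b ∈ G.Bor, z = e * b) ∧ ∃ e ∈ U, ∃ b ∈ G.Bor, z * G.w = e * (q⁻¹ * G.w) * b
  UQ : ∀ l z z', z⁻¹ * l * z ∈ G.App → z'⁻¹ * l * z' ∈ G.App →
    z * G.J * z⁻¹ = z' * G.J * z'⁻¹ ∧
    ∀ k, G.Pos k (z * G.w) → G.Pos k (z' * G.w) → z⁻¹ * z' ∈ G.A
  K0c : IsPreconnected G.K0
  K01 : (1 : P) ∈ G.K0
  K0J : G.J ∈ G.K0
  PD : ∀ k ∈ G.K0, ∀ d ∈ G.A, G.Pos (d * k * G.w) k

section Loops

variable {P H : Type} [Group P] [Group H] [MeasurableSpace P] [MeasurableSpace H]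

/-- `z` is an eigenframe of the element `l` of `P`. -/
def Fr (G : PG P) (l z : P) : Prop := z⁻¹ * l * z ∈ G.App

/-- Admissible functions on framed loops. -/
structure Adm (D : Dat P H) (G : PG P) (φ : D.Γ → P → ℝ) : Prop where
  conj : ∀ (g l : D.Γ) z, φ (g * l * g⁻¹) ((g : P × H).1 * z) = φ l z
  scale : ∀ (l : D.Γ) z, ∀ d ∈ G.A, φ l (z * d) = φ l z
  inv : ∀ (l : D.Γ) z, φ l⁻¹ (z * G.w) = - φ l z
  jodd : ∀ (l : D.Γ) z, φ l (z * G.J) = - φ l z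

open Classical in
/-- The value of `φ` at the loop `l` with the framing in whose basin `k` is (`0` if there is none). -/
noncomputable def ph {D : Dat P H} (G : PG P) (φ : D.Γ → P → ℝ) (l : D.Γ) (k : P) : ℝ :=
  if h : ∃ z, Fr G (l : P × H).1 z ∧ G.Pos k (z * G.w) then φ l h.choose else 0

/-- The boundary sum of the theta graph `(u, v, w)` with the start germs `x c₀`, `x c₁`, `x c₂`. -/
noncomputable def dl {D : Dat P H} (G : PG P) (φ : D.Γ → P → ℝ) (c₀ c₁ c₂ : P) (x : P × H)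
    (u v w : D.Γ) : ℝ :=
  ph G φ (u * v⁻¹) (x.1 * c₀) + ph G φ (v * w⁻¹) (x.1 * c₁) + ph G φ (w * u⁻¹) (x.1 * c₂)

/-- The effect `D_v(ug, u)` of the insertion of `g`; `c` is the start germ of `u`. -/
noncomputable def Dg {D : Dat P H} (G : PG P) (φ : D.Γ → P → ℝ) (c : P) (x : P × H)
    (g u v : D.Γ) : ℝ :=
  ph G φ (u * g * v⁻¹) (x.1 * c) - ph G φ (u * v⁻¹) (x.1 * c)

end Loops

section Edges

variable {P H : Type} [Group P] [Group H] [MeasurableSpace P] [MeasurableSpace H]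

/-- Indicator kernel of a set. -/
noncomputable def iK {P : Type} (S : Set P) : P → ℝ≥0∞ := S.indicator fun _ => 1

/-- The end window of a set `K` of end germs: `{q | q⁻¹ w ∈ K}`. -/
def PG.ew {P : Type} [Group P] (G : PG P) (K : Set P) : Set P := {q | q⁻¹ * G.w ∈ K}

/-- The displacements of edges with start germ in `S`, end germ in `K` and depth `≥ k`. -/
def PG.W {P : Type} [Group P] (G : PG P) (S K : Set P) (k : ℕ) : Set P :=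
  {g | ∃ s ∈ S, ∃ t ∈ G.Dp k, ∃ q ∈ G.ew K, g = s * t * q}

/-- The kernel `k₁ * δ_(a^n) * k₂` on `P`. -/
noncomputable def kk {P : Type} [Group P] [MeasurableSpace P] (μ : Measure P) (a : P)
    (k₁ k₂ : P → ℝ≥0∞) (n : ℕ) : P → ℝ≥0∞ :=
  fun g => ∫⁻ q, k₁ q * k₂ ((a ^ n)⁻¹ * q⁻¹ * g) ∂μ

/-- Edges of length `n` with the window functions `k₁`, `k₂`. -/
noncomputable def Dat.ed (D : Dat P H) (G : PG P) (k₁ k₂ : P → ℝ≥0∞) (n : ℕ) :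
    P × H → ℝ≥0∞ :=
  D.tk (kk D.μ₁ G.a k₁ k₂ n) n

/-- Edges of length `n`, range `R`, with start germs in `S` and end germs in `K`. -/
noncomputable def Dat.eg (D : Dat P H) (G : PG P) (S K : Set P) (R n : ℕ) : P × H → ℝ≥0∞ :=
  D.ed G (iK (S * G.D1 ^ R)) (iK (G.ew K)) n

/-- Sum over two edges from `x` to `y`. -/
noncomputable def Dat.st2 (D : Dat P H) (K₁ K₂ : P × H → ℝ≥0∞) (x y : P × H)
    (f : D.Γ → D.Γ → ℝ≥0∞) : ℝ≥0∞ :=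
  ∑' u : D.Γ, ∑' v : D.Γ, K₁ (x⁻¹ * (u : P × H) * y) * K₂ (x⁻¹ * (v : P × H) * y) * f u v

/-- Sum over three edges from `x` to `y`. -/
noncomputable def Dat.st3 (D : Dat P H) (K₁ K₂ K₃ : P × H → ℝ≥0∞) (x y : P × H)
    (f : D.Γ → D.Γ → D.Γ → ℝ≥0∞) : ℝ≥0∞ :=
  ∑' u : D.Γ, ∑' v : D.Γ, ∑' w : D.Γ,
    K₁ (x⁻¹ * (u : P × H) * y) * K₂ (x⁻¹ * (v : P × H) * y) * K₃ (x⁻¹ * (w : P × H) * y) *
      f u v w

/-- Sum over the loops `g` at `z` with `z⁻¹ g z ∈ S`. -/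
noncomputable def Dat.lp (D : Dat P H) (S : Set (P × H)) (z : P × H) (f : D.Γ → ℝ≥0∞) : ℝ≥0∞ :=
  ∑' g : D.Γ, S.indicator (fun _ => (1 : ℝ≥0∞)) (z⁻¹ * (g : P × H) * z) * f g

/-- `∫_{M²} ∑_{u,v} K₁(x⁻¹uy) K₂(x⁻¹vy) f(x; u, v)`. -/
noncomputable def Dat.X2 (D : Dat P H) (K₁ K₂ : P × H → ℝ≥0∞)
    (f : P × H → D.Γ → D.Γ → ℝ≥0∞) : ℝ≥0∞ :=
  D.IM fun x => D.IM fun y => D.st2 K₁ K₂ x y (f x)

/-- `∫_{M²} ∑_{u,v,w} K₁(x⁻¹uy) K₂(x⁻¹vy) K₃(x⁻¹wy) f(x; u, v, w)`. -/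
noncomputable def Dat.X3 (D : Dat P H) (K₁ K₂ K₃ : P × H → ℝ≥0∞)
    (f : P × H → D.Γ → D.Γ → D.Γ → ℝ≥0∞) : ℝ≥0∞ :=
  D.IM fun x => D.IM fun y => D.st3 K₁ K₂ K₃ x y (f x)

end Edges

section Control

variable {P H : Type} [Group P] [Group H] [TopologicalSpace P] [MeasurableSpace P]
  [MeasurableSpace H]

/-- A theta type: start windows `S i`, end windows `K i`, centres `c i` of the start windows. -/
structure Th (P : Type) where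
  c : Fin 3 → P
  S : Fin 3 → Set P
  K : Fin 3 → Set P

/-- Positive theta types. -/
structure Th.Ok (G : PG P) (t : Th P) : Prop where
  cS : ∀ i, t.c i ∈ t.S i
  Sc : ∀ i, IsCompact (t.S i)
  Kc : ∀ i, IsCompact (t.K i)
  TS : ∀ s₀ ∈ t.S 0, ∀ s₁ ∈ t.S 1, ∀ s₂ ∈ t.S 2, G.Tri s₀ s₁ s₂
  TK : ∀ k₀ ∈ t.K 0, ∀ k₁ ∈ t.K 1, ∀ k₂ ∈ t.K 2, G.Tri k₂ k₁ k₀

/-- The total defect of `φ` on the thetas of type `t`, range `R`, lengths in `[r, 4r]`. -/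
noncomputable def Dat.EE (D : Dat P H) (G : PG P) (t : Th P) (R r : ℕ) (φ : D.Γ → P → ℝ) :
    ℝ≥0∞ :=
  ∑ n₀ ∈ Finset.Icc r (4 * r), ∑ n₁ ∈ Finset.Icc r (4 * r), ∑ n₂ ∈ Finset.Icc r (4 * r),
    D.X3 (D.eg G (t.S 0) (t.K 0) R n₀) (D.eg G (t.S 1) (t.K 1) R n₁)
      (D.eg G (t.S 2) (t.K 2) R n₂)
      fun x u v w => ab (dl G φ (t.c 0) (t.c 1) (t.c 2) x u v w)

/-- The sum of the defects over a list of theta types. -/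
noncomputable def Dat.EL (D : Dat P H) (G : PG P) (L : List (Th P)) (R r : ℕ)
    (φ : D.Γ → P → ℝ) : ℝ≥0∞ :=
  (L.map fun t => D.EE G t R r φ).sum

/-- `F R i φ ≤ C r^p E(φ)`, where `E` is the defect for the list `L` of theta types with the range
`R + c₀`. The index `i` (lengths etc.) is restricted by `ok R r i`. -/
def CtlL (D : Dat P H) (G : PG P) (L : List (Th P)) (c₀ p : ℕ) {ι : Type} (ok : ℕ → ℕ → ι → Prop)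
    (F : ℕ → ι → (D.Γ → P → ℝ) → ℝ≥0∞) : Prop :=
  ∀ R : ℕ, ∃ (C : ℝ≥0∞) (r₀ : ℕ), C ≠ ∞ ∧
    ∀ r, r₀ ≤ r → ∀ i, ok R r i → ∀ φ, Adm D G φ →
      F R i φ ≤ C * (r : ℝ≥0∞) ^ p * D.EL G L (R + c₀) r φ

/-- Controlled functionals: `CtlL` for some finite list of theta types (which does not depend on `R`)
and some shift of the range. -/
def Ctl (D : Dat P H) (G : PG P) (p : ℕ) {ι : Type} (ok : ℕ → ℕ → ι → Prop)
    (F : ℕ → ι → (D.Γ → P → ℝ) → ℝ≥0∞) : Prop :=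
  ∃ (L : List (Th P)) (c₀ : ℕ), (∀ t ∈ L, t.Ok G) ∧ CtlL D G L c₀ p ok F

/-- Lengths in the range `[r, 4r - c]`. -/
def RG (c r n : ℕ) : Prop := r ≤ n ∧ n + c ≤ 4 * r

/-- Lower bound for the number of long edges. -/
def LoG (D : Dat P H) (G : PG P) : Prop :=
  ∀ s k : P, ∀ S ∈ 𝓝 s, ∀ K ∈ 𝓝 k, ∃ (T : ℕ) (c : ℝ≥0∞), 0 < c ∧
    ∀ R n, T ≤ n → ∀ x y, c ≤ D.N (D.eg G S K R n) x y

end Control

section Equidistribution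

variable {P H : Type} [Group P] [Group H] [TopologicalSpace P] [MeasurableSpace P]
  [MeasurableSpace H]

/-- Nice window functions (Lipschitz with compact support in the application). -/
structure NiceOk (NK : Set (P → ℝ≥0∞)) : Prop where
  meas : ∀ k ∈ NK, Measurable k
  bdd : ∀ k ∈ NK, ∃ C : ℝ≥0∞, C ≠ ∞ ∧ ∀ g, k g ≤ C
  supp : ∀ k ∈ NK, ∃ K : Set P, IsCompact K ∧ ∀ g, g ∉ K → k g = 0
  sep : ∀ Q O : Set P, IsCompact Q → IsOpen O → Q ⊆ O → ∃ k ∈ NK, (∀ g ∈ Q, k g = 1) ∧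
    ∀ g, g ∉ O → k g = 0

/-- Equidistribution of the edges with a polynomial rate. -/
def Equi (D : Dat P H) (G : PG P) (NK : Set (P → ℝ≥0∞)) : Prop :=
  ∀ k₁ ∈ NK, ∀ k₂ ∈ NK, ∃ C : ℝ≥0∞, C ≠ ∞ ∧ ∀ n, 1 ≤ n → ∀ x y,
    D.N (D.ed G k₁ k₂ n) x y ≤
      (∫⁻ g, k₁ g ∂D.μ₁) * (∫⁻ g, k₂ g ∂D.μ₁) + C * ((n : ℝ≥0∞)⁻¹) ^ 6 ∧
    (∫⁻ g, k₁ g ∂D.μ₁) * (∫⁻ g, k₂ g ∂D.μ₁) ≤
      D.N (D.ed G k₁ k₂ n) x y + C * ((n : ℝ≥0∞)⁻¹) ^ 6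

end Equidistribution

end Pool.Agent.MPEF.U
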