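import Pool.Agent.Lib.MP_ef3f0f_gt.U.F.SpecD
import Pool.Agent.Lib.MP_ef3f0f_gt.U.K.Spec

set_option autoImplicit false

/-!
# MP_ef3f0f_gt, Theorem U: the end for an abstract positive structure

From `S_NOphi` (no positive admissible function, Part F) and `S_Phi` (the dual functional, Part K):
a lattice with (I7) and equidistribution contains a surface group.
-/

namespace Pool.Agent.MPEF.U

open MeasureTheory Topology
open scoped ENNReal Pointwise
open Pool.Agent.MPEF (SurfaceGroup)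

variable (P H : Type) [Group P] [Group H] [TopologicalSpace P] [TopologicalSpace H]
  [IsTopologicalGroup P] [IsTopologicalGroup H] [LocallyCompactSpace P] [LocallyCompactSpace H]
  [T2Space P] [T2Space H] [SecondCountableTopology P] [SecondCountableTopology H]
  [MeasurableSpace P] [MeasurableSpace H] [BorelSpace P] [BorelSpace H]

private theorem end_pow {K : Set P} (hK : IsCompact K) (R : ℕ) : IsCompact (K ^ R) := by
  induction R with
  | zero => rw [pow_zero]; exact isCompact_singleton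
  | succ n ih => rw [pow_succ]; exact ih.mul hK

private theorem end_ew (G : PG P) {K : Set P} (hK : IsCompact K) : IsCompact (G.ew K) := by
  have h1 : G.ew K = (fun κ : P => G.w * κ⁻¹) '' K := by
    ext q
    constructor
    · intro hq
      exact ⟨q⁻¹ * G.w, hq, by group⟩
    · rintro ⟨κ, hκ, rfl⟩
      show (G.w * κ⁻¹)⁻¹ * G.w ∈ K
      have h2 : (G.w * κ⁻¹)⁻¹ * G.w = κ := by group
      rw [h2]
      exact hκ
  rw [h1]
  exact hK.image (continuous_const.mul continuous_inv)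

/-- The end for an abstract positive structure. -/
def S_End : Prop :=
  ∀ D : Dat P H, D.Ok → ∀ G : PG P, G.Ok → G.OkF → G.OkG → ∀ NK : Set (P → ℝ≥0∞),
    NiceOk NK → Equi D G NK → I7 D G →
    ∃ h : ℕ, 2 ≤ h ∧ ∃ f : SurfaceGroup h →* D.Γ, Function.Injective f

theorem tEnd : S_O P H → S_NOphi P H → S_Phi P H → S_End P H := by
  intro hO hNO hPhi D hD G hG hF hG' NK hNK hE hI
  by_contra hcon
  have hcon' : ∀ h : ℕ, 2 ≤ h → ∀ f : SurfaceGroup h →* D.Γ, ¬ Function.Injective f :=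
    fun h hh f hf => hcon ⟨h, hh, f, hf⟩
  obtain ⟨N, t, R, -, ht, hk⟩ := hNO D hD G hG hF hG' NK hNK hE hI
  obtain ⟨k₀, hk₀⟩ := hPhi G hG D hD hcon' (List.ofFn t) (by
    intro s hs
    obtain ⟨i, rfl⟩ := (List.mem_ofFn' t s).1 hs
    exact ht i)
  obtain ⟨r, -, hr2, hr3⟩ := hk k₀
  obtain ⟨-, -, -, -, -, hO6, -⟩ := hO D hD
  obtain ⟨φ, hφ, hpos⟩ := hk₀ (Fin N × (Fin 3 → Finset.Icc r (4 * r))) (fun p => t p.1)
    (fun p j => ((((t p.1).S j * G.D1 ^ R) * {G.a ^ ((p.2 j : ℕ))} * G.ew ((t p.1).K j)) ×ˢ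
      closure (D.O ^ ((p.2 j : ℕ)))))
    (fun p => (List.mem_ofFn' t _).2 ⟨p.1, rfl⟩)
    (fun p j => ((((ht p.1).Sc j).mul (end_pow P hG.D1c R)).mul isCompact_singleton |>.mul
      (end_ew P G ((ht p.1).Kc j))).prod (hO6 _))
    (fun p j g hg => by
      obtain ⟨x, hx, q, hq, hxq⟩ := Set.mem_mul.1 hg.1
      obtain ⟨y, hy, b, hb, hyb⟩ := Set.mem_mul.1 hx
      obtain ⟨s, hs, d, hd, hsd⟩ := Set.mem_mul.1 hy
      rw [Set.mem_singleton_iff] at hb
      refine ⟨s, hs, d * G.a ^ ((p.2 j : ℕ)), hr2 _ (Finset.mem_Icc.1 (p.2 j).2).1 d hd, q, hq, ?_⟩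
      rw [← hxq, ← hyb, ← hsd, hb]
      group)
  refine hr3 φ hφ fun i n hn x y u hu => ?_
  exact hpos (i, fun j => ⟨n j, Finset.mem_Icc.2 (hn j)⟩) x y u fun j =>
    ⟨(hu j).1, subset_closure (hu j).2⟩

end Pool.Agent.MPEF.U
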