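import Pool.Agent.Lib.MP_ef3f0f_gt.Stmt
import Pool.Agent.Lib.MP_ef3f0f_gt.U.End
import Pool.Agent.Lib.MP_ef3f0f_gt.U.J.All
import Pool.Agent.Lib.MP_ef3f0f_gt.U.B.All
import Pool.Agent.Lib.MP_ef3f0f_gt.U.S.AllF
import Pool.Agent.Lib.MP_ef3f0f_gt.U.S.Top

set_option autoImplicit false

/-!
# MP_ef3f0f_gt, Theorem U: from the abstract statement to `SL_n(ℝ) × H`
-/

namespace Pool.Agent.MPEF.U

open MeasureTheory Topology
open scoped ENNReal Pointwise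
open Pool.Agent.MPEF (SurfaceGroup)

/-- Theorem U for `SL_n(ℝ) × H`, `n = 2 m + 1`, from its ingredients. -/
theorem tFinU (m : ℕ) (hm : 1 ≤ m) (H : Type) [Group H] [TopologicalSpace H] [IsTopologicalGroup H]
    [LocallyCompactSpace H] [T2Space H] [SecondCountableTopology H] [MeasurableSpace H]
    [BorelSpace H] (hEnd : S_End (S.P m) H)
    (hI7 : ∀ D : Dat (S.P m) H, D.Ok → I7 D (S.gS m))
    (hH : ∃ K : Set H, IsCompact K ∧ Subgroup.closure K = ⊤)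
    (Γ : Subgroup (S.P m × H)) (hd : DiscreteTopology Γ) (hc : CompactSpace ((S.P m × H) ⧸ Γ)) :
    ∃ g : ℕ, 2 ≤ g ∧ ∃ f : SurfaceGroup g →* S.P m × H, (∀ x, f x ∈ Γ) ∧ Function.Injective f := by
  obtain ⟨D, hD, rfl⟩ := aDat (S.P m) H Γ hd hc hH
  obtain ⟨hN, hE⟩ := aEquiU (S.P m) H (S.xS m) (S.xS_Ok m hm)
  obtain ⟨g, hg, f, hf⟩ := hEnd D hD (S.gS m) (S.gS_Ok m hm) (S.gS_OkF m) (S.gS_OkG m)
    (S.xS m).NK hN (hE (S.gS m) rfl D hD) (hI7 D hD)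
  exact ⟨g, hg, D.Γ.subtype.comp f, fun x => (f x).2,
    fun x y hxy => hf (Subtype.ext hxy)⟩

end Pool.Agent.MPEF.U
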