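import Pool.Agent.Lib.MP_ef3f0f_gt.Stmt

set_option autoImplicit false

/-!
# MP_ef3f0f_gt, Theorem U: from `SL_n(ℝ)` to `PSL_n(ℝ)`, `n` odd
-/

namespace Pool.Agent.MPEF.U

open Topology
open Pool.Agent.MPEF (SurfaceGroup)

/-- The center of `SL_n(ℝ)` is trivial for odd `n`. -/
theorem SL_center (n : ℕ) (hn : Odd n) :
    Subgroup.center (Matrix.SpecialLinearGroup (Fin n) ℝ) = ⊥ := by
  rw [eq_bot_iff]
  intro A hA
  rw [Subgroup.mem_bot]
  obtain ⟨r, hr, h⟩ := Matrix.SpecialLinearGroup.mem_center_iff.1 hA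
  rw [Fintype.card_fin] at hr
  have hr1 : r = 1 := by
    have h1 : r ^ n = 1 ^ n := by rw [hr, one_pow]
    exact hn.pow_injective h1
  subst hr1
  apply Subtype.ext
  rw [← h]
  simp

/-- Transport of the statement along an isomorphism of topological groups. -/
theorem transport {A B : Type} [Group A] [Group B] [TopologicalSpace A] [TopologicalSpace B]
    (e : A ≃* B) (he : Continuous e) (he' : Continuous e.symm)
    (h : ∀ Γ : Subgroup A, DiscreteTopology Γ → CompactSpace (A ⧸ Γ) →
      ∃ g : ℕ, 2 ≤ g ∧ ∃ f : SurfaceGroup g →* A, (∀ x, f x ∈ Γ) ∧ Function.Injective f)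
    (Γ : Subgroup B) (hd : DiscreteTopology Γ) (hc : CompactSpace (B ⧸ Γ)) :
    ∃ g : ℕ, 2 ≤ g ∧ ∃ f : SurfaceGroup g →* B, (∀ x, f x ∈ Γ) ∧ Function.Injective f := by
  have hd' : DiscreteTopology (Γ.comap e.toMonoidHom) := by
    refine DiscreteTopology.of_continuous_injective
      (f := fun x : (Γ.comap e.toMonoidHom) => (⟨e x.1, x.2⟩ : Γ)) ?_ ?_
    · exact (he.comp continuous_subtype_val).subtype_mk _
    · intro x y hxy
      have h1 : e x.1 = e y.1 := congrArg Subtype.val hxy
      exact Subtype.ext (e.injective h1)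
  have hc' : CompactSpace (A ⧸ (Γ.comap e.toMonoidHom)) := by
    let F : B ⧸ Γ → A ⧸ (Γ.comap e.toMonoidHom) :=
      Quotient.map' e.symm (by
        intro x y hxy
        rw [QuotientGroup.leftRel_apply] at hxy ⊢
        rw [Subgroup.mem_comap]
        have h1 : e.toMonoidHom ((e.symm x)⁻¹ * e.symm y) = x⁻¹ * y := by
          simp
        rw [h1]
        exact hxy)
    have hF : Continuous F := he'.quotient_map' _
    have hF' : Function.Surjective F := by
      intro a
      induction a using QuotientGroup.induction_on with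
      | H a =>
        refine ⟨QuotientGroup.mk (e a), ?_⟩
        change Quotient.map' e.symm _ (Quotient.mk'' (e a)) = _
        rw [Quotient.map'_mk'']
        simp only [MulEquiv.symm_apply_apply]
    exact hF'.compactSpace hF
  obtain ⟨g, hg, f, hf, hi⟩ := h (Γ.comap e.toMonoidHom) hd' hc'
  exact ⟨g, hg, e.toMonoidHom.comp f, fun x => hf x, e.injective.comp hi⟩

/-- From `SL_n(ℝ) × H` to `PSL_n(ℝ) × H`, `n` odd. -/
theorem tPSL (n : ℕ) (hn : Odd n) (H : Type) [Group H] [TopologicalSpace H]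
    (h : ∀ Γ : Subgroup (Matrix.SpecialLinearGroup (Fin n) ℝ × H), DiscreteTopology Γ →
      CompactSpace ((Matrix.SpecialLinearGroup (Fin n) ℝ × H) ⧸ Γ) →
      ∃ g : ℕ, 2 ≤ g ∧ ∃ f : SurfaceGroup g →* Matrix.SpecialLinearGroup (Fin n) ℝ × H,
        (∀ x, f x ∈ Γ) ∧ Function.Injective f)
    (Γ : Subgroup (Matrix.ProjectiveSpecialLinearGroup (Fin n) ℝ × H)) (hd : DiscreteTopology Γ)
    (hc : CompactSpace ((Matrix.ProjectiveSpecialLinearGroup (Fin n) ℝ × H) ⧸ Γ)) :
    ∃ g : ℕ, 2 ≤ g ∧ ∃ f : SurfaceGroup g →* Matrix.ProjectiveSpecialLinearGroup (Fin n) ℝ × H,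
      (∀ x, f x ∈ Γ) ∧ Function.Injective f := by
  let q : Matrix.SpecialLinearGroup (Fin n) ℝ →* Matrix.ProjectiveSpecialLinearGroup (Fin n) ℝ :=
    QuotientGroup.mk' _
  have hq : Function.Bijective q := by
    constructor
    · rw [injective_iff_map_eq_one]
      intro a ha
      have h1 : a ∈ Subgroup.center (Matrix.SpecialLinearGroup (Fin n) ℝ) :=
        (QuotientGroup.eq_one_iff a).1 ha
      rw [SL_center n hn] at h1
      exact h1
    · exact QuotientGroup.mk'_surjective _
  let e : Matrix.SpecialLinearGroup (Fin n) ℝ ≃* Matrix.ProjectiveSpecialLinearGroup (Fin n) ℝ :=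
    MulEquiv.ofBijective q hq
  have he : Continuous e := continuous_quot_mk
  have he' : Continuous e.symm := by
    have h1 : IsOpenMap e := QuotientGroup.isOpenMap_coe
    exact (e.toEquiv.toHomeomorphOfContinuousOpen he h1).symm.continuous
  refine transport (e.prodCongr (MulEquiv.refl H)) ?_ ?_ h Γ hd hc
  · exact (he.comp continuous_fst).prodMk continuous_snd
  · exact (he'.comp continuous_fst).prodMk continuous_snd

end Pool.Agent.MPEF.U
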