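import Pool.Agent.Lib.MP_ef3f0f_gt.U.Fin
import Pool.Agent.Lib.MP_ef3f0f_gt.U.K.All
import Pool.Agent.Lib.MP_ef3f0f_gt.U.E.Fca

set_option autoImplicit false

/-!
# MP_ef3f0f_gt, Theorem U: `SL_n(ℝ) × H`, `n = 2 m + 1`, from coercivity and Part F
-/

namespace Pool.Agent.MPEF.U

open MeasureTheory Topology
open scoped ENNReal Pointwise
open Pool.Agent.MPEF (SurfaceGroup)

/-- Theorem U for `SL_n(ℝ) × H`, `n = 2 m + 1`, from coercivity and Part F. -/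
theorem tPre (m : ℕ) (hm : 1 ≤ m) (H : Type) [Group H] [TopologicalSpace H] [IsTopologicalGroup H]
    [LocallyCompactSpace H] [T2Space H] [SecondCountableTopology H] [MeasurableSpace H]
    [BorelSpace H] (hI : S_I7c (S.P m) H) (hN : S_NOphi (S.P m) H)
    (hH : ∃ K : Set H, IsCompact K ∧ Subgroup.closure K = ⊤)
    (Γ : Subgroup (S.P m × H)) (hd : DiscreteTopology Γ) (hc : CompactSpace ((S.P m × H) ⧸ Γ)) :
    ∃ g : ℕ, 2 ≤ g ∧ ∃ f : SurfaceGroup g →* S.P m × H, (∀ x, f x ∈ Γ) ∧ Function.Injective f := by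
  refine tFinU m hm H (tEnd (S.P m) H (aO (S.P m) H) hN (aPhi (S.P m) H)) (fun D hD => ?_) hH Γ hd hc
  obtain ⟨hNK, hE⟩ := aEquiU (S.P m) H (S.xS m) (S.xS_Ok m hm)
  have hE' := hE (S.gS m) rfl D hD
  exact hI D (S.gS m) (aFc (S.P m) H D hD (S.gS m) (S.gS_Ok m hm) (S.gS_OkF m) (S.xS m).NK hNK hE')
    (S.xS m).NK hNK hE'

end Pool.Agent.MPEF.U
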