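import Pool.Agent.Lib.MP_ef3f0f_gt.all
import Pool.Agent.Lib.MP_ef3f0f_gt.U.Pre
import Pool.Agent.Lib.MP_ef3f0f_gt.U.E.All
import Pool.Agent.Lib.MP_ef3f0f_gt.U.PSL

set_option autoImplicit false

/-!
# MP_ef3f0f_gt: surface subgroups of uniform lattices in `PSL_n(ℝ) × H`, `n = 2` or `n ≥ 3` odd
-/

namespace Pool.Agent.MPEF.U

open Pool.Agent.MPEF (SurfaceGroup)

/-- Theorem U for `SL_n(ℝ) × H`, `n = 2 m + 1`. -/
theorem tOdd (m : ℕ) (hm : 1 ≤ m) (H : Type) [Group H] [TopologicalSpace H] [IsTopologicalGroup H]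
    [LocallyCompactSpace H] [T2Space H] [SecondCountableTopology H]
    (hH : ∃ K : Set H, IsCompact K ∧ Subgroup.closure K = ⊤)
    (Γ : Subgroup (S.P m × H)) (hd : DiscreteTopology Γ) (hc : CompactSpace ((S.P m × H) ⧸ Γ)) :
    ∃ g : ℕ, 2 ≤ g ∧ ∃ f : SurfaceGroup g →* S.P m × H, (∀ x, f x ∈ Γ) ∧ Function.Injective f := by
  letI : MeasurableSpace H := borel H
  haveI : BorelSpace H := ⟨rfl⟩
  exact tPre m hm H (aI7c (S.P m) H) (aNOphi (S.P m) H) hH Γ hd hc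

/-- Theorem S and Theorem U. -/
theorem tSU (n : ℕ) (hn : n = 2 ∨ 3 ≤ n ∧ Odd n) (H : Type) [Group H] [TopologicalSpace H]
    [IsTopologicalGroup H] [LocallyCompactSpace H] [T2Space H] [SecondCountableTopology H]
    (hH : ∃ K : Set H, IsCompact K ∧ Subgroup.closure K = ⊤)
    (Γ : Subgroup (Matrix.ProjectiveSpecialLinearGroup (Fin n) ℝ × H)) (hd : DiscreteTopology Γ)
    (hc : CompactSpace ((Matrix.ProjectiveSpecialLinearGroup (Fin n) ℝ × H) ⧸ Γ))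
    (hD : n = 2 →
      Dense (Prod.fst '' (Γ : Set (Matrix.ProjectiveSpecialLinearGroup (Fin n) ℝ × H)))) :
    ∃ g : ℕ, 2 ≤ g ∧ ∃ f : SurfaceGroup g →* Matrix.ProjectiveSpecialLinearGroup (Fin n) ℝ × H,
      (∀ x, f x ∈ Γ) ∧ Function.Injective f ∧ (n = 2 → Function.Injective fun x => (f x).1) := by
  rcases hn with rfl | ⟨h3, hn⟩
  · obtain ⟨g, hg, f, hf, hi⟩ := tAll H hH Γ hd hc (hD rfl)
    exact ⟨g, hg, f, hf, fun x y hxy => hi (congrArg Prod.fst hxy), fun _ => hi⟩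
  · obtain ⟨g, hg, f, hf, hi⟩ := tPSL n hn H (by
      obtain ⟨m, rfl⟩ := hn
      intro Γ' hd' hc'
      exact tOdd m (by omega) H hH Γ' hd' hc') Γ hd hc
    exact ⟨g, hg, f, hf, hi, fun h2 => absurd h2 (by omega)⟩

end Pool.Agent.MPEF.U
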